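import Pool.Agent.Work.MP_122e00_nt.Bd.B02

/-!
# Skolem: explicit universal Skolem sets. Brun-Titchmarsh for the progression `1 mod q`

`#{t ≤ T : 1 + q t prime} ≤ 26 (q / φ(q)) T / log T` for all `q ≥ 1`, `T ≥ 2`, by the arithmetic
large sieve (the two steps `prime_step`, `sqfree_step` are copied from
`Work/MP_8e4d29_nt/Bd/B01.lean`, where the case of moduli `2 ^ e`, `3 ^ e` is treated).
-/

set_option autoImplicit false

namespace Pool.Agent.Work.MP_8d13b5_lc.Dn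

open Finset
open Pool.Agent.Work.MP_122e00_nt (ee norm_ee ee_add ee_neg ee_one_period ee_nat_mul farey_ls)

theorem ee_zero : ee 0 = 1 := by unfold ee; simp

theorem ee_int (k : ℤ) : ee (k : ℝ) = 1 := by
  have := ee_one_period 0 k
  rwa [zero_add, ee_zero] at this

theorem int_of_ee_eq_one (x : ℝ) (h : ee x = 1) : ∃ m : ℤ, x = m := by
  unfold ee at h
  rw [Complex.exp_eq_one_iff] at h
  obtain ⟨m, hm⟩ := h
  refine ⟨m, ?_⟩
  have h2 : (2 * Real.pi * Complex.I : ℂ) ≠ 0 := Complex.two_pi_I_ne_zero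
  have h3 : (x : ℂ) * (2 * Real.pi * Complex.I) = m * (2 * Real.pi * Complex.I) := by
    rw [← hm]; ring
  have h4 := mul_right_cancel₀ h2 h3
  exact_mod_cast h4

/-- the exponential sum -/
noncomputable def SS (c : ℕ → ℂ) (T : ℕ) (β : ℝ) : ℂ := ∑ n ∈ range T, c n * ee (n * β)

lemma SS_add_int (c : ℕ → ℂ) (T : ℕ) (β : ℝ) (k : ℤ) : SS c T (β + k) = SS c T β := by
  unfold SS
  refine Finset.sum_congr rfl fun n _ => ?_
  have : (n : ℝ) * (β + k) = n * β + ((n * k : ℤ) : ℝ) := by push_cast; ring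
  rw [this, ee_one_period]

lemma ortho (l : ℕ) (hl : 0 < l) (k : ℤ) (hk : ¬ (l : ℤ) ∣ k) :
    ∑ a ∈ range l, ee (a * ((k : ℝ) / l)) = 0 := by
  have hl' : (l : ℝ) ≠ 0 := by positivity
  set ζ := ee ((k : ℝ) / l) with hζ
  have h1 : ∀ a ∈ range l, ee (a * ((k : ℝ) / l)) = ζ ^ a := fun a _ => ee_nat_mul a _
  rw [Finset.sum_congr rfl h1]
  have h2 : ζ ^ l = 1 := by
    rw [hζ, ← ee_nat_mul]
    have : (l : ℝ) * ((k : ℝ) / l) = k := by field_simp
    rw [this, ee_int]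
  have h3 : ζ ≠ 1 := by
    intro h
    obtain ⟨m, hm⟩ := int_of_ee_eq_one _ (hζ ▸ h)
    apply hk
    refine ⟨m, ?_⟩
    have h7 : (k : ℝ) = l * m := by
      rw [← hm]; field_simp
    exact_mod_cast h7
  have h4 := geom_sum_mul ζ l
  rw [h2, sub_self] at h4
  rcases mul_eq_zero.1 h4 with h | h
  · exact h
  · exact absurd (sub_eq_zero.1 h) h3

lemma prime_step (c : ℕ → ℂ) (T l : ℕ) (hl : 1 < l) (ρ : ℕ) (hρ : ρ < l)
    (hc : ∀ n, n % l = ρ → c n = 0) (β : ℝ) :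
    ‖SS c T β‖ ^ 2 ≤ ((l - 1 : ℕ) : ℝ) * ∑ a ∈ Ico 1 l, ‖SS c T ((a : ℝ) / l + β)‖ ^ 2 := by
  have hl0 : 0 < l := by omega
  have hl' : (l : ℝ) ≠ 0 := by positivity
  have key : ∑ a ∈ range l, ee (-((a : ℝ) * ρ / l)) * SS c T ((a : ℝ) / l + β) = 0 := by
    unfold SS
    simp only [Finset.mul_sum]
    rw [Finset.sum_comm]
    refine Finset.sum_eq_zero fun n _ => ?_
    have h1 : ∀ a ∈ range l, ee (-((a : ℝ) * ρ / l)) * (c n * ee (n * ((a : ℝ) / l + β)))
        = (c n * ee (n * β)) * ee (a * (((n - ρ : ℤ) : ℝ) / l)) := by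
      intro a _
      have e1 : (a : ℝ) * (((n - ρ : ℤ) : ℝ) / l) = -((a : ℝ) * ρ / l) + n * ((a : ℝ) / l) := by
        push_cast; field_simp; ring
      have e2 : (n : ℝ) * ((a : ℝ) / l + β) = n * ((a : ℝ) / l) + n * β := by ring
      rw [e1, e2, ee_add, ee_add]
      ring
    rw [Finset.sum_congr rfl h1, ← Finset.mul_sum]
    by_cases h : (l : ℤ) ∣ (n - ρ : ℤ)
    · have h2 : n % l = ρ := by
        have h3 : (ρ : ℤ) % l = (n : ℤ) % l := (Int.modEq_iff_dvd).2 h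
        have h4 : n % l = ρ % l := by exact_mod_cast h3.symm
        rw [h4, Nat.mod_eq_of_lt hρ]
      rw [hc n h2]; simp
    · rw [ortho l hl0 _ h, mul_zero]
  rw [Finset.range_eq_Ico, Finset.sum_eq_sum_Ico_succ_bot hl0] at key
  have h0 : ee (-(((0 : ℕ) : ℝ) * ρ / l)) * SS c T (((0 : ℕ) : ℝ) / l + β) = SS c T β := by
    simp only [Nat.cast_zero, zero_mul, zero_div, neg_zero, zero_add, ee_zero, one_mul]
  rw [h0] at key
  have h1 : ‖SS c T β‖ ≤ ∑ a ∈ Ico 1 l, ‖SS c T ((a : ℝ) / l + β)‖ := by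
    have h2 : SS c T β = -∑ a ∈ Ico (0 + 1) l, ee (-((a : ℝ) * ρ / l)) * SS c T ((a : ℝ) / l + β) := by
      linear_combination key
    rw [h2, norm_neg]
    refine (norm_sum_le _ _).trans (le_of_eq ?_)
    refine Finset.sum_congr rfl fun a _ => ?_
    rw [norm_mul, norm_ee, one_mul]
  calc ‖SS c T β‖ ^ 2 ≤ (∑ a ∈ Ico 1 l, ‖SS c T ((a : ℝ) / l + β)‖) ^ 2 := by
        gcongr
    _ ≤ ((Ico 1 l).card : ℝ) * ∑ a ∈ Ico 1 l, ‖SS c T ((a : ℝ) / l + β)‖ ^ 2 :=
        sq_sum_le_card_mul_sum_sq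
    _ = _ := by rw [Nat.card_Ico]

lemma sqfree_step (c : ℕ → ℂ) (T : ℕ) (P : ℕ → Prop)
    (hP : ∀ l, l.Prime → P l → ∃ ρ < l, ∀ n, n % l = ρ → c n = 0) :
    ∀ d : ℕ, Squarefree d → (∀ l, l.Prime → l ∣ d → P l) → ∀ β : ℝ,
    ‖SS c T β‖ ^ 2 ≤ (d.totient : ℝ) *
      ∑ a ∈ (range d).filter (fun a => Nat.Coprime a d), ‖SS c T ((a : ℝ) / d + β)‖ ^ 2 := by
  intro d
  induction d using Nat.strong_induction_on with
  | _ d ih =>
    intro hsq hd β
    by_cases hd1 : d = 1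
    · subst hd1
      have : (range 1).filter (fun a => Nat.Coprime a 1) = {0} := by decide
      rw [this]
      simp
    have hd0 : d ≠ 0 := hsq.ne_zero
    set l := d.minFac with hl
    have hlp : l.Prime := Nat.minFac_prime hd1
    obtain ⟨m, hm⟩ : l ∣ d := Nat.minFac_dvd d
    have hm0 : 0 < m := by
      rcases Nat.eq_zero_or_pos m with h | h
      · rw [h, mul_zero] at hm; exact absurd hm hd0
      · exact h
    have hcop : Nat.Coprime l m := by
      rw [hm] at hsq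
      exact (Nat.squarefree_mul_iff.1 hsq).1
    have hsqm : Squarefree m := by
      rw [hm] at hsq
      exact (Nat.squarefree_mul_iff.1 hsq).2.2
    have hml : m < d := by
      rw [hm]
      exact lt_mul_of_one_lt_left hm0 hlp.one_lt
    have hdpos : 0 < d := Nat.pos_of_ne_zero hd0
    obtain ⟨ρ, hρ, hc⟩ := hP l hlp (hd l hlp ⟨m, hm⟩)
    have h1 := ih m hml hsqm (fun p hp hpm => hd p hp (hm ▸ hpm.mul_left l)) β
    have hphi : d.totient = (l - 1) * m.totient := by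
      rw [hm, Nat.totient_mul hcop, Nat.totient_prime hlp]
    have hlR : (l : ℝ) ≠ 0 := by exact_mod_cast hlp.pos.ne'
    have hmR : (m : ℝ) ≠ 0 := by exact_mod_cast hm0.ne'
    -- the map
    set φ : ℕ × ℕ → ℕ := fun p => (p.1 * m + p.2 * l) % d with hφ
    set A := (Ico 1 l) ×ˢ ((range m).filter (fun a => Nat.Coprime a m)) with hA
    have hval : ∀ p ∈ A, ‖SS c T ((p.1 : ℝ) / l + ((p.2 : ℝ) / m + β))‖ ^ 2
        = ‖SS c T ((φ p : ℝ) / d + β)‖ ^ 2 := by
      intro p _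
      have hdR : (d : ℝ) ≠ 0 := by exact_mod_cast hd0
      obtain ⟨K, e1⟩ : ∃ K : ℕ, ((p.1 * m + p.2 * l : ℕ) : ℝ) = (φ p : ℝ) + d * (K : ℝ) := by
        refine ⟨(p.1 * m + p.2 * l) / d, ?_⟩
        have := Nat.mod_add_div (p.1 * m + p.2 * l) d
        exact_mod_cast this.symm
      have e2 : (p.1 : ℝ) / l + ((p.2 : ℝ) / m + β)
          = ((φ p : ℝ) / d + β) + ((K : ℤ) : ℝ) := by
        have e3 : (p.1 : ℝ) / l + (p.2 : ℝ) / m = ((p.1 * m + p.2 * l : ℕ) : ℝ) / d := by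
          have : (d : ℝ) = l * m := by exact_mod_cast hm
          rw [this]
          push_cast
          field_simp
        rw [← add_assoc, e3, e1, add_div, mul_div_cancel_left₀ _ hdR]
        push_cast
        ring
      rw [e2, SS_add_int]
    have hmaps : ∀ p ∈ A, φ p ∈ (range d).filter (fun a => Nat.Coprime a d) := by
      intro p hp
      rw [hA, Finset.mem_product, Finset.mem_Ico, Finset.mem_filter, Finset.mem_range] at hp
      obtain ⟨⟨hp1, hp2⟩, hp3, hp4⟩ := hp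
      rw [Finset.mem_filter, Finset.mem_range]
      refine ⟨Nat.mod_lt _ hdpos, ?_⟩
      have hx : Nat.Coprime (p.1 * m + p.2 * l) d := by
        rw [hm]
        apply Nat.Coprime.mul_right
        · rw [Nat.coprime_add_mul_right_left]
          apply Nat.Coprime.mul_left
          · rw [Nat.coprime_comm]
            exact (Nat.Prime.coprime_iff_not_dvd hlp).2 (Nat.not_dvd_of_pos_of_lt (by omega) hp2)
          · exact hcop.symm
        · rw [add_comm, Nat.coprime_add_mul_right_left]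
          exact Nat.Coprime.mul_left hp4 hcop
      have : Nat.gcd ((p.1 * m + p.2 * l) % d) d = 1 := by
        rw [← Nat.gcd_rec, Nat.gcd_comm]
        exact hx
      exact this
    have hinj : Set.InjOn φ A := by
      intro p hp p' hp' h
      rw [hA, Finset.mem_coe, Finset.mem_product, Finset.mem_Ico, Finset.mem_filter,
        Finset.mem_range] at hp hp'
      have h' : (p.1 * m + p.2 * l) ≡ (p'.1 * m + p'.2 * l) [MOD d] := h
      have hl1 : (p.1 * m + p.2 * l) ≡ (p'.1 * m + p'.2 * l) [MOD l] := h'.of_dvd ⟨m, hm⟩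
      have hm1 : (p.1 * m + p.2 * l) ≡ (p'.1 * m + p'.2 * l) [MOD m] :=
        h'.of_dvd ⟨l, by rw [hm, mul_comm]⟩
      have hl2 : p.1 * m ≡ p'.1 * m [MOD l] := by
        have a1 : p.1 * m + p.2 * l ≡ p.1 * m [MOD l] := by
          unfold Nat.ModEq; rw [Nat.add_mul_mod_self_right]
        have a2 : p'.1 * m + p'.2 * l ≡ p'.1 * m [MOD l] := by
          unfold Nat.ModEq; rw [Nat.add_mul_mod_self_right]
        exact (a1.symm.trans hl1).trans a2
      have hm2 : p.2 * l ≡ p'.2 * l [MOD m] := by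
        have a1 : p.1 * m + p.2 * l ≡ p.2 * l [MOD m] := by
          unfold Nat.ModEq; rw [add_comm, Nat.add_mul_mod_self_right]
        have a2 : p'.1 * m + p'.2 * l ≡ p'.2 * l [MOD m] := by
          unfold Nat.ModEq; rw [add_comm, Nat.add_mul_mod_self_right]
        exact (a1.symm.trans hm1).trans a2
      have hl3 : p.1 ≡ p'.1 [MOD l] := Nat.ModEq.cancel_right_of_coprime hcop hl2
      have hm3 : p.2 ≡ p'.2 [MOD m] := Nat.ModEq.cancel_right_of_coprime hcop.symm hm2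
      have e1 : p.1 = p'.1 := Nat.ModEq.eq_of_lt_of_lt hl3 hp.1.2 hp'.1.2
      have e2 : p.2 = p'.2 := Nat.ModEq.eq_of_lt_of_lt hm3 hp.2.1 hp'.2.1
      exact Prod.ext e1 e2
    calc ‖SS c T β‖ ^ 2
        ≤ (m.totient : ℝ) * ∑ v ∈ (range m).filter (fun a => Nat.Coprime a m),
            ‖SS c T ((v : ℝ) / m + β)‖ ^ 2 := h1
      _ ≤ (m.totient : ℝ) * ∑ v ∈ (range m).filter (fun a => Nat.Coprime a m),
            (((l - 1 : ℕ) : ℝ) * ∑ u ∈ Ico 1 l, ‖SS c T ((u : ℝ) / l + ((v : ℝ) / m + β))‖ ^ 2) := by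
          gcongr with v _
          exact prime_step c T l hlp.one_lt ρ hρ hc _
      _ = (d.totient : ℝ) * ∑ p ∈ A, ‖SS c T ((p.1 : ℝ) / l + ((p.2 : ℝ) / m + β))‖ ^ 2 := by
          rw [hA, Finset.sum_product_right, hphi, ← Finset.mul_sum]
          push_cast
          ring
      _ = (d.totient : ℝ) * ∑ p ∈ A, ‖SS c T ((φ p : ℝ) / d + β)‖ ^ 2 := by
          rw [Finset.sum_congr rfl hval]
      _ = (d.totient : ℝ) * ∑ a ∈ A.image φ, ‖SS c T ((a : ℝ) / d + β)‖ ^ 2 := by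
          rw [Finset.sum_image hinj]
      _ ≤ (d.totient : ℝ) * ∑ a ∈ (range d).filter (fun a => Nat.Coprime a d),
            ‖SS c T ((a : ℝ) / d + β)‖ ^ 2 := by
          gcongr
          intro a ha
          obtain ⟨p, hp, rfl⟩ := Finset.mem_image.1 ha
          exact hmaps p hp


/-- the moduli -/
def DD (F q : ℕ) : Finset ℕ := (Icc 1 F).filter (fun d => Squarefree d ∧ Nat.Coprime d q)

lemma sieve_card (T F q : ℕ) (hF : 0 < F) (Z : Finset ℕ) (hZ : Z ⊆ range T)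
    (hρ : ∀ l : ℕ, l.Prime → ¬ l ∣ q → l ≤ F → ∃ ρ < l, ∀ n ∈ Z, n % l ≠ ρ) :
    (Z.card : ℝ) * ∑ d ∈ DD F q, 1 / (d : ℝ) ≤ T + (F ^ 2 : ℕ) * (harmonic (F ^ 2) : ℝ) := by
  classical
  set c : ℕ → ℂ := fun n => if n ∈ Z then 1 else 0 with hc
  have hS0 : SS c T 0 = (Z.card : ℂ) := by
    unfold SS
    simp only [mul_zero, ee_zero, mul_one, hc]
    rw [Finset.sum_ite_mem, Finset.inter_eq_right.2 hZ]
    simp
  have hS2 : ∑ n ∈ range T, ‖c n‖ ^ 2 = (Z.card : ℝ) := by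
    have : ∀ n ∈ range T, ‖c n‖ ^ 2 = if n ∈ Z then (1 : ℝ) else 0 := by
      intro n _
      simp only [hc]
      split_ifs <;> simp
    rw [Finset.sum_congr rfl this, Finset.sum_ite_mem, Finset.inter_eq_right.2 hZ]
    simp
  have hls := farey_ls F hF T c
  rw [hS2] at hls
  have hstep : ∀ d ∈ DD F q, (Z.card : ℝ) ^ 2 * (1 / (d : ℝ)) ≤
      ∑ j ∈ (range d).filter (fun j => Nat.Coprime j d),
        ‖∑ n ∈ range T, c n * ee (n * ((j : ℝ) / d))‖ ^ 2 := by
    intro d hd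
    rw [DD, Finset.mem_filter, Finset.mem_Icc] at hd
    obtain ⟨⟨hd1, hd2⟩, hsq, hcq⟩ := hd
    have h1 := sqfree_step c T (fun l => ¬ l ∣ q ∧ l ≤ F) (by
      intro l hl ⟨h3, hlF⟩
      obtain ⟨ρ, h, h'⟩ := hρ l hl h3 hlF
      refine ⟨ρ, h, fun n hn => ?_⟩
      simp only [hc]
      rw [if_neg]
      intro hnZ
      exact h' n hnZ hn) d hsq (by
      intro l hl hld
      refine ⟨?_, (Nat.le_of_dvd hd1 hld).trans hd2⟩
      intro hlq
      exact hl.one_lt.ne' (Nat.eq_one_of_dvd_coprimes hcq hld hlq)) 0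
    rw [hS0] at h1
    simp only [add_zero, Complex.norm_natCast] at h1
    have hphi : (d.totient : ℝ) ≤ d := by exact_mod_cast Nat.totient_le d
    have hd0 : (0 : ℝ) < d := by exact_mod_cast hd1
    have hnn : 0 ≤ ∑ a ∈ (range d).filter (fun a => Nat.Coprime a d), ‖SS c T ((a : ℝ) / d)‖ ^ 2 := by
      positivity
    rw [mul_one_div, div_le_iff₀ hd0]
    calc (Z.card : ℝ) ^ 2 ≤ (d.totient : ℝ) *
          ∑ a ∈ (range d).filter (fun a => Nat.Coprime a d), ‖SS c T ((a : ℝ) / d)‖ ^ 2 := h1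
      _ ≤ d * ∑ a ∈ (range d).filter (fun a => Nat.Coprime a d), ‖SS c T ((a : ℝ) / d)‖ ^ 2 := by
          gcongr
      _ = _ := by rw [mul_comm]; rfl
  have htot : (Z.card : ℝ) ^ 2 * ∑ d ∈ DD F q, 1 / (d : ℝ) ≤
      (T + (F ^ 2 : ℕ) * (harmonic (F ^ 2) : ℝ)) * (Z.card : ℝ) := by
    rw [Finset.mul_sum]
    refine (Finset.sum_le_sum hstep).trans ?_
    refine le_trans ?_ hls
    apply Finset.sum_le_sum_of_subset_of_nonneg
    · exact Finset.filter_subset _ _
    · intro i _ _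
      positivity
  rcases Nat.eq_zero_or_pos Z.card with h | h
  · rw [h]
    simp only [Nat.cast_zero, zero_mul]
    have : (0 : ℝ) ≤ (harmonic (F ^ 2) : ℝ) := by
      exact_mod_cast (by unfold harmonic; positivity : (0 : ℚ) ≤ harmonic (F ^ 2))
    positivity
  · have h' : (0 : ℝ) < Z.card := by exact_mod_cast h
    have e : (Z.card : ℝ) ^ 2 * ∑ d ∈ DD F q, 1 / (d : ℝ)
        = ((Z.card : ℝ) * ∑ d ∈ DD F q, 1 / (d : ℝ)) * Z.card := by ring
    rw [e] at htot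
    exact le_of_mul_le_mul_right htot h'

lemma sum_inv_sq_le (F : ℕ) : ∑ k ∈ Icc 1 F, 1 / (k : ℝ) ^ 2 ≤ 2 := by
  rcases Nat.eq_zero_or_pos F with h | h
  · subst h; simp
  · have h1 : Icc 1 F = insert 1 (Ioc 1 F) := by
      ext a; simp only [Finset.mem_Icc, Finset.mem_insert, Finset.mem_Ioc]; omega
    rw [h1, Finset.sum_insert (by simp)]
    have h2 := sum_Ioc_inv_sq_le_sub (α := ℝ) (k := 1) (n := F) one_ne_zero h
    have h3 : ∑ k ∈ Ioc 1 F, 1 / (k : ℝ) ^ 2 = ∑ i ∈ Ioc 1 F, ((i : ℝ) ^ 2)⁻¹ := by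
      refine Finset.sum_congr rfl fun i _ => by rw [one_div]
    rw [h3]
    have h4 : (0 : ℝ) ≤ (F : ℝ)⁻¹ := by positivity
    simp only [Nat.cast_one, one_pow, inv_one] at h2 ⊢
    linarith

/-- the sum over the squarefree divisors -/
lemma sum_sqf_div_le (q : ℕ) (hq : 1 ≤ q) :
    ∑ a ∈ q.divisors.filter Squarefree, 1 / (a : ℝ) ≤ (q : ℝ) / (q.totient : ℝ) := by
  classical
  have h1 : ∑ a ∈ q.divisors.filter Squarefree, 1 / (a : ℝ) ≤
      ∏ p ∈ q.primeFactors, (1 + 1 / (p : ℝ)) := by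
    rw [Finset.prod_one_add]
    have hinj : Set.InjOn Nat.primeFactors (q.divisors.filter Squarefree : Set ℕ) := by
      intro a ha b hb h
      rw [Finset.mem_coe, Finset.mem_filter] at ha hb
      rw [← Nat.prod_primeFactors_of_squarefree ha.2, ← Nat.prod_primeFactors_of_squarefree hb.2, h]
    calc ∑ a ∈ q.divisors.filter Squarefree, 1 / (a : ℝ)
        = ∑ a ∈ q.divisors.filter Squarefree, ∏ p ∈ a.primeFactors, (1 / (p : ℝ)) := by
          refine Finset.sum_congr rfl fun a ha => ?_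
          rw [Finset.mem_filter] at ha
          conv_lhs => rw [← Nat.prod_primeFactors_of_squarefree ha.2]
          push_cast
          simp [Finset.prod_inv_distrib]
      _ = ∑ t ∈ (q.divisors.filter Squarefree).image Nat.primeFactors, ∏ p ∈ t, (1 / (p : ℝ)) := by
          rw [Finset.sum_image hinj]
      _ ≤ _ := by
          apply Finset.sum_le_sum_of_subset_of_nonneg
          · intro t ht
            obtain ⟨a, ha, rfl⟩ := Finset.mem_image.1 ht
            rw [Finset.mem_filter, Nat.mem_divisors] at ha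
            exact Finset.mem_powerset.2 (Nat.primeFactors_mono ha.1.1 ha.1.2)
          · intro t _ _
            exact Finset.prod_nonneg fun p _ => by positivity
  refine h1.trans ?_
  have h2 : (q.totient : ℝ) = q * ∏ p ∈ q.primeFactors, (1 - (p : ℝ)⁻¹) := by
    have h := Nat.totient_eq_mul_prod_factors q
    have h' : (((q.totient : ℚ)) : ℝ) =
        (((q : ℚ) * ∏ p ∈ q.primeFactors, (1 - (p : ℚ)⁻¹) : ℚ) : ℝ) := by rw [h]
    push_cast at h'
    exact h'
  have hpos : ∀ p ∈ q.primeFactors, 0 < 1 - (p : ℝ)⁻¹ := by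
    intro p hp
    have hp2 : (2 : ℝ) ≤ p := by exact_mod_cast (Nat.prime_of_mem_primeFactors hp).two_le
    have : (p : ℝ)⁻¹ ≤ 2⁻¹ := inv_anti₀ (by norm_num) hp2
    have h3 : (2 : ℝ)⁻¹ < 1 := by norm_num
    linarith
  have hprod : 0 < ∏ p ∈ q.primeFactors, (1 - (p : ℝ)⁻¹) := Finset.prod_pos hpos
  have hq0 : (0 : ℝ) < q := by exact_mod_cast hq
  rw [h2, le_div_iff₀ (mul_pos hq0 hprod)]
  have h4 : (∏ p ∈ q.primeFactors, (1 + 1 / (p : ℝ))) * ∏ p ∈ q.primeFactors, (1 - (p : ℝ)⁻¹) ≤ 1 := by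
    rw [← Finset.prod_mul_distrib]
    apply Finset.prod_le_one
    · intro p hp
      exact mul_nonneg (by positivity) (hpos p hp).le
    · intro p _
      have : (1 + 1 / (p : ℝ)) * (1 - (p : ℝ)⁻¹) = 1 - ((p : ℝ)⁻¹) ^ 2 := by
        rw [one_div]; ring
      rw [this]
      have := sq_nonneg ((p : ℝ)⁻¹)
      linarith
  calc (∏ p ∈ q.primeFactors, (1 + 1 / (p : ℝ))) * (q * ∏ p ∈ q.primeFactors, (1 - (p : ℝ)⁻¹))
      = q * ((∏ p ∈ q.primeFactors, (1 + 1 / (p : ℝ))) * ∏ p ∈ q.primeFactors, (1 - (p : ℝ)⁻¹)) := by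
        ring
    _ ≤ q * 1 := by gcongr
    _ = q := mul_one _

/-- squarefree moduli coprime to `q` suffice -/
lemma sum_DD_ge (F q : ℕ) (hq : 1 ≤ q) :
    ∑ n ∈ Icc 1 F, 1 / (n : ℝ) ≤ 2 * ((q : ℝ) / q.totient) * ∑ d ∈ DD F q, 1 / (d : ℝ) := by
  classical
  have hex : ∀ n : ℕ, ∃ p : ℕ × ℕ, p.2 ^ 2 * p.1 = n ∧ Squarefree p.1 := by
    intro n
    obtain ⟨a, b, h1, h2⟩ := Nat.sq_mul_squarefree n
    exact ⟨(a, b), h1, h2⟩
  choose f hf1 hf2 using hex
  set g : ℕ → (ℕ × ℕ) × ℕ := fun n => ((Nat.gcd (f n).1 q, (f n).1 / Nat.gcd (f n).1 q), (f n).2)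
    with hg
  have hval : ∀ n, (g n).2 ^ 2 * ((g n).1.1 * (g n).1.2) = n := by
    intro n
    simp only [hg]
    rw [Nat.mul_div_cancel' (Nat.gcd_dvd_left _ _)]
    exact hf1 n
  have hmem : ∀ n ∈ Icc 1 F, g n ∈ ((q.divisors.filter Squarefree) ×ˢ (DD F q)) ×ˢ (Icc 1 F) := by
    intro n hn
    rw [Finset.mem_Icc] at hn
    have h1 := hval n
    have hsq := hf2 n
    have hfac : (g n).1.1 * (g n).1.2 = (f n).1 := by
      simp only [hg]
      rw [Nat.mul_div_cancel' (Nat.gcd_dvd_left _ _)]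
    have hsq1 : Squarefree ((g n).1.1 * (g n).1.2) := by rw [hfac]; exact hsq
    rw [Nat.squarefree_mul_iff] at hsq1
    obtain ⟨hcop, hs1, hs2⟩ := hsq1
    have hd1 : (g n).1.2 ∣ n := ⟨(g n).2 ^ 2 * (g n).1.1, h1.symm.trans (by ring)⟩
    have hd2 : (g n).2 ∣ n := ⟨(g n).2 * ((g n).1.1 * (g n).1.2), h1.symm.trans (by ring)⟩
    have hcq : Nat.Coprime (g n).1.2 q := by
      rw [Nat.coprime_iff_gcd_eq_one]
      by_contra hne
      obtain ⟨p, hp, hpd⟩ := Nat.exists_prime_and_dvd hne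
      have hp1 : p ∣ (g n).1.2 := hpd.trans (Nat.gcd_dvd_left _ _)
      have hp2 : p ∣ q := hpd.trans (Nat.gcd_dvd_right _ _)
      have hp3 : p ∣ (f n).1 := by rw [← hfac]; exact hp1.mul_left _
      have hp4 : p ∣ (g n).1.1 := Nat.dvd_gcd hp3 hp2
      exact hp.one_lt.ne' (Nat.eq_one_of_dvd_coprimes hcop hp4 hp1)
    rw [Finset.mem_product, Finset.mem_product, Finset.mem_filter, Nat.mem_divisors, DD,
      Finset.mem_filter, Finset.mem_Icc, Finset.mem_Icc]
    refine ⟨⟨⟨⟨Nat.gcd_dvd_right _ _, by omega⟩, hs1⟩, ⟨Nat.pos_of_dvd_of_pos hd1 hn.1,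
      (Nat.le_of_dvd hn.1 hd1).trans hn.2⟩, hs2, hcq⟩, Nat.pos_of_dvd_of_pos hd2 hn.1,
      (Nat.le_of_dvd hn.1 hd2).trans hn.2⟩
  have hinj : Set.InjOn g (Icc 1 F : Set ℕ) := by
    intro n _ n' _ h
    rw [← hval n, ← hval n', h]
  set D1 := q.divisors.filter Squarefree with hD1
  calc ∑ n ∈ Icc 1 F, 1 / (n : ℝ)
      = ∑ n ∈ Icc 1 F, (1 / ((g n).1.1 : ℝ)) * (1 / ((g n).1.2 : ℝ)) * (1 / ((g n).2 : ℝ) ^ 2) := by
        refine Finset.sum_congr rfl fun n _ => ?_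
        have : (n : ℝ) = ((g n).2 : ℝ) ^ 2 * (((g n).1.1 : ℝ) * ((g n).1.2 : ℝ)) := by
          exact_mod_cast (hval n).symm
        conv_lhs => rw [this]
        rw [one_div_mul_one_div, one_div_mul_one_div]
        congr 1
        ring
    _ = ∑ p ∈ (Icc 1 F).image g, (1 / (p.1.1 : ℝ)) * (1 / (p.1.2 : ℝ)) * (1 / (p.2 : ℝ) ^ 2) := by
        rw [Finset.sum_image hinj]
    _ ≤ ∑ p ∈ (D1 ×ˢ (DD F q)) ×ˢ (Icc 1 F),
          (1 / (p.1.1 : ℝ)) * (1 / (p.1.2 : ℝ)) * (1 / (p.2 : ℝ) ^ 2) := by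
        apply Finset.sum_le_sum_of_subset_of_nonneg
        · intro p hp
          obtain ⟨n, hn, rfl⟩ := Finset.mem_image.1 hp
          exact hmem n hn
        · intro p _ _
          positivity
    _ = ((∑ a ∈ D1, 1 / (a : ℝ)) * ∑ d ∈ DD F q, 1 / (d : ℝ)) * ∑ k ∈ Icc 1 F, 1 / (k : ℝ) ^ 2 := by
        rw [Finset.sum_product, Finset.sum_mul_sum, Finset.sum_product]
        simp_rw [Finset.sum_mul, Finset.mul_sum]
    _ ≤ (((q : ℝ) / q.totient) * ∑ d ∈ DD F q, 1 / (d : ℝ)) * 2 := by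
        have h0 : 0 ≤ ∑ d ∈ DD F q, 1 / (d : ℝ) := Finset.sum_nonneg fun _ _ => by positivity
        have h3 : 0 ≤ ∑ k ∈ Icc 1 F, 1 / (k : ℝ) ^ 2 := Finset.sum_nonneg fun _ _ => by positivity
        gcongr
        · exact sum_sqf_div_le q hq
        · exact sum_inv_sq_le F
    _ = _ := by ring

/-- the sieve bound for primes in a progression -/
lemma prime_count (F q T : ℕ) (hF : 0 < F)
    (Z : Finset ℕ) (hZ : Z ⊆ range T) (hZp : ∀ t ∈ Z, (1 + q * t).Prime ∧ F < 1 + q * t) :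
    (Z.card : ℝ) * ∑ d ∈ DD F q, 1 / (d : ℝ) ≤ T + (F ^ 2 : ℕ) * (harmonic (F ^ 2) : ℝ) := by
  apply sieve_card T F q hF Z hZ
  intro l hl hlq hlF
  have : Fact l.Prime := ⟨hl⟩
  have hqu : (q : ZMod l) ≠ 0 := by
    intro h
    rw [ZMod.natCast_eq_zero_iff] at h
    exact hlq h
  refine ⟨(-(1 : ZMod l) / q).val, ZMod.val_lt _, fun t ht hcon => ?_⟩
  obtain ⟨hp, hlt⟩ := hZp t ht
  have h1 : (t : ZMod l) = -(1 : ZMod l) / q := by
    have : ((t % l : ℕ) : ZMod l) = (((-(1 : ZMod l) / q).val : ℕ) : ZMod l) := by rw [hcon]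
    rwa [ZMod.natCast_mod, ZMod.natCast_zmod_val] at this
  have h2 : ((1 + q * t : ℕ) : ZMod l) = 0 := by
    push_cast
    rw [h1]
    field_simp
    ring
  rw [ZMod.natCast_eq_zero_iff] at h2
  have h3 := (Nat.prime_dvd_prime_iff_eq hl hp).1 h2
  omega

/-- **Brun-Titchmarsh** for the class `1` modulo `q`. -/
theorem brun_titchmarsh (q T : ℕ) (hq : 1 ≤ q) (hT : 2 ≤ T) :
    ((((Icc 1 T).filter (fun t => (1 + q * t).Prime)).card : ℕ) : ℝ) ≤
      26 * ((q : ℝ) / q.totient) * (T / Real.log T) := by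
  classical
  set F := Nat.sqrt (Nat.sqrt T) with hF
  have hT1 : (1 : ℝ) < T := by exact_mod_cast (by omega : 1 < T)
  have hT0 : (0 : ℝ) < T := by linarith
  have hlog : 0 < Real.log T := Real.log_pos hT1
  have hs1 : 1 ≤ Nat.sqrt T := Nat.le_sqrt.2 (by omega)
  have hF1 : 1 ≤ F := Nat.le_sqrt.2 (by omega)
  have hFs : F * F ≤ Nat.sqrt T := Nat.sqrt_le (Nat.sqrt T)
  have hsT : Nat.sqrt T * Nat.sqrt T ≤ T := Nat.sqrt_le T
  have hF4 : T < (F + 1) ^ 4 := by
    have h1 : T < (Nat.sqrt T + 1) * (Nat.sqrt T + 1) := Nat.lt_succ_sqrt T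
    have h2 : Nat.sqrt T < (F + 1) * (F + 1) := Nat.lt_succ_sqrt (Nat.sqrt T)
    have h3 : Nat.sqrt T + 1 ≤ (F + 1) * (F + 1) := h2
    calc T < (Nat.sqrt T + 1) * (Nat.sqrt T + 1) := h1
      _ ≤ ((F + 1) * (F + 1)) * ((F + 1) * (F + 1)) := Nat.mul_le_mul h3 h3
      _ = (F + 1) ^ 4 := by ring
  have hrT : (0 : ℝ) < Real.sqrt T := Real.sqrt_pos.2 hT0
  have hrr : Real.sqrt T * Real.sqrt T = T := Real.mul_self_sqrt hT0.le
  have hlogsq : Real.log T ≤ 2 * (Real.sqrt T - 1) := by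
    have h1 := Real.log_le_sub_one_of_pos hrT
    have h2 : Real.log T = 2 * Real.log (Real.sqrt T) := by
      rw [Real.log_sqrt hT0.le]; ring
    linarith
  have hsR : ((Nat.sqrt T : ℕ) : ℝ) ≤ Real.sqrt T := Real.nat_sqrt_le_real_sqrt
  have hFsR : ((F : ℝ)) ^ 2 ≤ Real.sqrt T := by
    have : ((F * F : ℕ) : ℝ) ≤ ((Nat.sqrt T : ℕ) : ℝ) := by exact_mod_cast hFs
    push_cast at this
    nlinarith
  have hFR1 : (1 : ℝ) ≤ F := by exact_mod_cast hF1
  -- the error term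
  have herr : ((F ^ 2 : ℕ) : ℝ) * (harmonic (F ^ 2) : ℝ) ≤ T := by
    have h1 : (harmonic (F ^ 2) : ℝ) ≤ 1 + Real.log ((F ^ 2 : ℕ) : ℝ) := harmonic_le_one_add_log _
    have h2 : Real.log ((F ^ 2 : ℕ) : ℝ) ≤ Real.log (Real.sqrt T) := by
      apply Real.log_le_log
      · push_cast; positivity
      · push_cast; exact hFsR
    have h3 : Real.log (Real.sqrt T) ≤ Real.sqrt T - 1 := Real.log_le_sub_one_of_pos hrT
    have h4 : (harmonic (F ^ 2) : ℝ) ≤ Real.sqrt T := by linarith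
    have h5 : (0 : ℝ) ≤ (harmonic (F ^ 2) : ℝ) := by
      exact_mod_cast (by unfold harmonic; positivity : (0 : ℚ) ≤ harmonic (F ^ 2))
    calc ((F ^ 2 : ℕ) : ℝ) * (harmonic (F ^ 2) : ℝ) ≤ Real.sqrt T * Real.sqrt T := by
          push_cast
          exact mul_le_mul hFsR h4 h5 hrT.le
      _ = T := hrr
  -- the main sum
  have hq0 : (0 : ℝ) < q := by exact_mod_cast hq
  have hphi0 : (0 : ℝ) < q.totient := by exact_mod_cast Nat.totient_pos.2 hq
  have hR1 : 1 ≤ (q : ℝ) / q.totient := by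
    rw [le_div_iff₀ hphi0, one_mul]
    exact_mod_cast Nat.totient_le q
  set R := (q : ℝ) / q.totient with hR
  set J := ∑ d ∈ DD F q, 1 / (d : ℝ) with hJ
  have hJ0 : 0 ≤ J := Finset.sum_nonneg fun _ _ => by positivity
  have hJ1 : Real.log T / 8 ≤ R * J := by
    have h1 := sum_DD_ge F q hq
    have h2 : Real.log ((F + 1 : ℕ) : ℝ) ≤ ∑ n ∈ Icc 1 F, 1 / (n : ℝ) := by
      have := log_add_one_le_harmonic F
      have e : (harmonic F : ℝ) = ∑ n ∈ Icc 1 F, 1 / (n : ℝ) := by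
        rw [harmonic_eq_sum_Icc]
        push_cast
        refine Finset.sum_congr rfl fun i _ => by rw [one_div]
      rw [e] at this
      exact_mod_cast this
    have h3 : Real.log T ≤ 4 * Real.log ((F + 1 : ℕ) : ℝ) := by
      have : Real.log T ≤ Real.log (((F + 1) ^ 4 : ℕ) : ℝ) := by
        apply Real.log_le_log hT0
        exact_mod_cast hF4.le
      rw [Nat.cast_pow, Real.log_pow] at this
      exact_mod_cast this
    have h4 : 2 * R * J = 2 * (R * J) := by ring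
    rw [h4] at h1
    linarith
  -- the set
  set A := (Icc 1 T).filter (fun t => (1 + q * t).Prime) with hA
  set Z := A.filter (fun t => F < 1 + q * t) with hZ
  have hcard : (A.card : ℝ) ≤ Z.card + F := by
    have h1 : A.card = Z.card + (A.filter (fun t => ¬ F < 1 + q * t)).card := by
      rw [hZ, Finset.card_filter_add_card_filter_not]
    have h2 : (A.filter (fun t => ¬ F < 1 + q * t)).card ≤ F := by
      have : A.filter (fun t => ¬ F < 1 + q * t) ⊆ Icc 1 F := by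
        intro t ht
        rw [Finset.mem_filter, hA, Finset.mem_filter, Finset.mem_Icc] at ht
        rw [Finset.mem_Icc]
        refine ⟨ht.1.1.1, ?_⟩
        have h3 := ht.2
        have h4 : t ≤ q * t := Nat.le_mul_of_pos_left t hq
        omega
      calc _ ≤ (Icc 1 F).card := Finset.card_le_card this
        _ = F := by simp
    rw [h1]
    push_cast
    have : ((A.filter (fun t => ¬ F < 1 + q * t)).card : ℝ) ≤ F := by exact_mod_cast h2
    linarith
  have hZc := prime_count F q (T + 1) hF1 Z (by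
    intro t ht
    rw [hZ, Finset.mem_filter, hA, Finset.mem_filter, Finset.mem_Icc] at ht
    rw [Finset.mem_range]
    omega) (by
    intro t ht
    rw [hZ, Finset.mem_filter, hA, Finset.mem_filter, Finset.mem_Icc] at ht
    exact ⟨ht.1.2, ht.2⟩)
  rw [← hJ] at hZc
  have hZ1 : (Z.card : ℝ) * J ≤ 3 * T := by
    push_cast at hZc herr ⊢
    linarith
  have hZ2 : (Z.card : ℝ) * (Real.log T / 8) ≤ R * (3 * T) := by
    calc (Z.card : ℝ) * (Real.log T / 8) ≤ (Z.card : ℝ) * (R * J) := by gcongr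
      _ = R * ((Z.card : ℝ) * J) := by ring
      _ ≤ R * (3 * T) := by gcongr
  have hZ3 : (Z.card : ℝ) ≤ 24 * R * (T / Real.log T) := by
    rw [mul_div_assoc', le_div_iff₀ hlog]
    linarith
  have hF5 : (F : ℝ) ≤ 2 * R * (T / Real.log T) := by
    have h1 : (F : ℝ) ≤ Real.sqrt T := by nlinarith
    have h2 : Real.sqrt T ≤ 2 * (T / Real.log T) := by
      rw [mul_div_assoc', le_div_iff₀ hlog]
      calc Real.sqrt T * Real.log T ≤ Real.sqrt T * (2 * Real.sqrt T) := by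
            gcongr
            linarith
        _ = 2 * (Real.sqrt T * Real.sqrt T) := by ring
        _ = 2 * T := by rw [hrr]
    have h3 : 0 ≤ T / Real.log T := by positivity
    nlinarith
  have : 26 * R * (T / Real.log T) = 24 * R * (T / Real.log T) + 2 * R * (T / Real.log T) := by ring
  rw [this]
  linarith

end Pool.Agent.Work.MP_8d13b5_lc.Dn
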